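import Pool.Agent.H53.GXR.All1
import Pool.Agent.H53.GX.Asm2
import Pool.Agent.H76.GX.BRG
import Pool.Agent.H76.GX.CAX
import Pool.Agent.H76.GX.DD2
import Pool.Agent.H50.GX.DAX
import Pool.Agent.H44.GX.FRA
import Pool.Agent.H39.GX.FGL
import Pool.Agent.H11.GX.FAE
import Pool.Agent.H36.GX.FAX
import Pool.Agent.H58.GX.SPT
import Pool.Agent.H69.GX.LCL
import Pool.Agent.H86.GX.EX1
import Pool.Agent.H76.GX.EX2
import Pool.Agent.H42.GX.CFG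
import Pool.Agent.H37.GX.LBO
import Pool.Agent.H19.GX.LBE
import Pool.Agent.H59.GX.LBT
import Pool.Agent.H19.GX.LBC
import Pool.Agent.H68.GX.OPF
import Pool.Agent.H68.GX.VTP
import Pool.Agent.H76.GX.CHF
import Pool.Agent.H19.GX.JZX
import Pool.Agent.H63.GX.EPS
import Pool.Agent.H44.GM.NXT
import Pool.Agent.H56.GM.GRW
import Pool.Agent.H58.GM.PIN
import Pool.Agent.H40.GM.SWI

/-!
# Forbidden coloured patterns, no precolouring: the final theorem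
-/

set_option autoImplicit false

namespace Pool.Agent.H53.GXR.All

open Pool.Agent.H53.GX

theorem a_PIN : Pool.Agent.H53.GM.T_PIN := Pool.Agent.H58.GM.pf_PIN
theorem a_SWI : Pool.Agent.H53.GM.T_SWI := Pool.Agent.H40.GM.pf_SWI a_PIN
theorem a_GRW : Pool.Agent.H53.GM.T_GRW := Pool.Agent.H56.GM.GRW.pf_GRW
theorem a_NXT : Pool.Agent.H53.GM.T_NXT := Pool.Agent.H44.GM.pf_NXT a_PIN a_GRW
theorem a_FRA : Pool.Agent.H76.GX.T_FRA := Pool.Agent.H44.GX.pf_FRA a_TPB a_RLI a_AMG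
theorem a_FGL : Pool.Agent.H76.GX.T_FGL := Pool.Agent.H39.GX.pf_FGL a_TPB a_GLU a_GL2
theorem a_FAE : Pool.Agent.H76.GX.T_FAE := Pool.Agent.H11.GX.pf_FAE a_TPB a_FGL
theorem a_FAX : Pool.Agent.H76.GX.T_FAX := Pool.Agent.H36.GX.pf_FAX a_TPB a_FRA a_FGL a_FAE
theorem a_SPT : Pool.Agent.H76.GX.T_SPT := Pool.Agent.H58.GX.pf_SPT a_TPB a_GLU a_GL2 a_FRA a_FAE
theorem a_LCL : Pool.Agent.H76.GX.T_LCL := Pool.Agent.H69.GX.pf_LCL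
theorem a_EX1 : Pool.Agent.H76.GX.T_EX1 := Pool.Agent.H86.GX.pf_EX1 a_FAX
theorem a_EX2 : Pool.Agent.H76.GX.T_EX2 := Pool.Agent.H76.GX.pf_EX2 a_FAX
theorem a_CAX : Pool.Agent.H76.GX.T_CAX := Pool.Agent.H76.GX.pf_CAX a_LCL a_EX1 a_EX2 a_FAX
theorem a_DD2 : Pool.Agent.H76.GX.T_DD2 := Pool.Agent.H76.GX.pf_DD2 a_EX1 a_FAX a_SPT
theorem a_DAX : Pool.Agent.H76.GX.T_DAX := Pool.Agent.H50.GX.pf_DAX a_LCL a_EX1 a_FAX a_DD2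
theorem a_COR : T_COR := Pool.Agent.H76.GX.pf_CORP a_CAX a_DAX
theorem a_CFG : T_CFG := Pool.Agent.H42.GX.pf_CFG a_TPB
theorem a_VTP : T_VTP := Pool.Agent.H68.GX.pf_VTP
theorem a_OPF : T_OPF := Pool.Agent.H68.GX.pf_OPF a_VTP
theorem a_CHO : T_CHO :=
  asm_cho (Pool.Agent.H37.GX.pf_LBO a_CFG) (Pool.Agent.H19.GX.pf_LBE a_CFG)
    (Pool.Agent.H59.GX.pf_LBT a_CFG) Pool.Agent.H19.GX.pf_LBC
theorem a_ALG : T_ALG :=
  asm_alg Pool.Agent.H76.GX.pf_CORE a_COR a_CHO (Pool.Agent.H76.GX.CHF.pf_CHF a_VTP a_OPF)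
    (Pool.Agent.H19.GX.pf_JZX a_PIN) a_SWI a_NXT Pool.Agent.H99.GM.pf_CYC a_OLK
    Pool.Agent.H63.GX.pf_EPS

/-- the final theorem -/
theorem final (τ σ : Pool.Agent.H68.BP.Sig) (Al : Fin σ.m → Fin τ.m → Prop)
    (L : List (Σ n : ℕ, Pool.Agent.H68.BP.Str τ (Fin n))) (A : Type)
    (𝔸 : Pool.Agent.H68.BP.Str σ A) (hAc : Countable A) (hAn : Nonempty A)
    (hol : Pool.Agent.H58.SF.Oligo 𝔸) (har : ∀ l, 1 ≤ τ.ar l)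
    (hT : ∀ (n : ℕ) (𝕏 : Pool.Agent.H68.BP.Str σ (Fin n)),
      (∃ f, Pool.Agent.H68.BP.IsHom 𝕏 𝔸 f) ↔
      ∃ M : Pool.Agent.H68.BP.Str τ (Fin n), Pool.Agent.H53.GM.Avoids L M ∧
        Pool.Agent.H53.GM.Cols Al M 𝕏) :
    Pool.Agent.H68.BP.PPConstructsK3 𝔸 ∨ ∃ (ρ : Pool.Agent.H68.BP.Sig) (T : Type) (_ : Finite T)
      (𝕋 : Pool.Agent.H68.BP.Str ρ T), ¬ Pool.Agent.H68.BP.PPConstructsK3 𝕋 ∧
      N793a5b8e.ManyOneReducible (Pool.Agent.H68.BP.CSP 𝔸) (Pool.Agent.H68.BP.CSP 𝕋) :=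
  a_fin a_ALG τ σ Al L A 𝔸 hAc hAn hol har hT

end Pool.Agent.H53.GXR.All
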