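import Pool.Agent.H53.GXR.B3X

/-!
# Forbidden coloured patterns: realizations of systems of types are local
-/

set_option autoImplicit false
set_option linter.unusedVariables false

namespace Pool.Agent.H53.GXR.B2

open Pool.Agent.H53.GXR.B3 Pool.Agent.H53.GX Pool.Agent.H68.BP Pool.Agent.H58.SF Pool.Agent.H53.GC Pool.Agent.H53.GR Pool.Agent.H53.GM
open Classical

noncomputable section

section image

variable {τ : Sig} {N : ℕ} {X Z : Type}

/-- the image of a structure -/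
def imS (M : Str τ X) (e : X → Z) : Str τ Z := fun l z => ∃ y, M l y ∧ z = fun i => e (y i)

theorem pull_hom {M : Str τ X} {e : X → Z} (he : Function.Injective e) (x₀ : X)
    {D : Str τ (Fin N)} {h : Fin N → Z} (hD : IsHom D (imS M e) h) :
    ∃ f : Fin N → X, IsHom D M f ∧ ∀ v w, h v = e w → f v = w := by
  have h2 : ∀ v w, h v = e w →
      (if hv : ∃ w, h v = e w then hv.choose else x₀) = w := by
    intro v w hw
    have hv : ∃ w, h v = e w := ⟨w, hw⟩
    rw [dif_pos hv]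
    exact he (hv.choose_spec.symm.trans hw)
  refine ⟨fun v => if hv : ∃ w, h v = e w then hv.choose else x₀, fun l z hz => ?_, h2⟩
  obtain ⟨y, hy1, hy2⟩ := hD l z hz
  have h3 : (fun i => if hv : ∃ w, h (z i) = e w then hv.choose else x₀) = y := by
    funext i
    exact h2 _ _ (congrFun hy2 i)
  rw [h3]
  exact hy1

end image

section can

variable {τ : Sig} {N k : ℕ} {W : Type}

/-- the guards with their labels -/
abbrev Gm (C : Sy (Fin k) (Ty τ N (Fin k)) W) : Type :=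
  {p : Finset W × Ty τ N (Fin k) // C.gd p.1 p.2}

/-- the elements of the canonical structure -/
abbrev ZZ (C : Sy (Fin k) (Ty τ N (Fin k)) W) (Wg : Gm C → Type) : Type :=
  (W ⊕ Fin k) ⊕ (Σ γ : Gm C, Wg γ)

variable (C : Sy (Fin k) (Ty τ N (Fin k)) W) (I : Finset (Fin k)) (Wg : Gm C → Type)
  (Mg : (γ : Gm C) → Str τ (Wg γ)) (ag : (γ : Gm C) → Fin k → Wg γ)

/-- the embedding of the structure for the guard `γ` -/
def eg (γ : Gm C) (w : Wg γ) : ZZ C Wg :=
  if h : ∃ v ∈ I, ag γ v = w then Sum.inl (Sum.inr h.choose)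
  else if h' : ∃ x ∈ γ.1.1, ag γ (C.pt x) = w then Sum.inl (Sum.inl h'.choose)
  else Sum.inr ⟨γ, w⟩

/-- the canonical structure -/
def Can : Str τ (ZZ C Wg) := fun l z => ∃ γ, imS (Mg γ) (eg C I Wg ag γ) l z

/-- facts on the system -/
structure SyF (F : Set (Str τ (Fin N))) : Prop where
  tr : ∀ g t, C.gd g t → Set.InjOn C.pt (g : Set W)
  dis : ∀ g t, C.gd g t → ∀ v ∈ I, ∀ x ∈ g, C.pt x ≠ v
  dn : ∀ g t g', C.gd g t → g' ⊆ g → C.gd g' (rse (g'.image C.pt ∪ I) t)
  inj : ∀ γ, Function.Injective (ag γ)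
  val : ∀ γ, Val F (Mg γ)
  typ : ∀ γ : Gm C, rse (γ.1.1.image C.pt ∪ I) (tp N (Mg γ) (ag γ)) = γ.1.2

variable {C I Wg Mg ag} {F : Set (Str τ (Fin N))}

theorem eg_I (hs : SyF C I Wg Mg ag F) (γ : Gm C) {v : Fin k} (hv : v ∈ I) :
    eg C I Wg ag γ (ag γ v) = Sum.inl (Sum.inr v) := by
  have h : ∃ u ∈ I, ag γ u = ag γ v := ⟨v, hv, rfl⟩
  unfold eg
  rw [dif_pos h]
  exact congrArg (fun u => Sum.inl (Sum.inr u)) (hs.inj γ h.choose_spec.2)

theorem eg_g (hs : SyF C I Wg Mg ag F) (γ : Gm C) {x : W} (hx : x ∈ γ.1.1) :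
    eg C I Wg ag γ (ag γ (C.pt x)) = Sum.inl (Sum.inl x) := by
  have h : ¬ ∃ u ∈ I, ag γ u = ag γ (C.pt x) := by
    rintro ⟨u, hu, h1⟩
    exact hs.dis _ _ γ.2 u hu x hx (hs.inj γ h1).symm
  have h' : ∃ y ∈ γ.1.1, ag γ (C.pt y) = ag γ (C.pt x) := ⟨x, hx, rfl⟩
  unfold eg
  rw [dif_neg h, dif_pos h']
  exact congrArg (fun u => Sum.inl (Sum.inl u)) (hs.tr _ _ γ.2
    (Finset.mem_coe.2 h'.choose_spec.1) (Finset.mem_coe.2 hx) (hs.inj γ h'.choose_spec.2))

theorem eg_cases (γ : Gm C) (w : Wg γ) :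
    (∃ v ∈ I, ag γ v = w ∧ eg C I Wg ag γ w = Sum.inl (Sum.inr v)) ∨
      (∃ x ∈ γ.1.1, ag γ (C.pt x) = w ∧ eg C I Wg ag γ w = Sum.inl (Sum.inl x)) ∨
      eg C I Wg ag γ w = Sum.inr ⟨γ, w⟩ := by
  by_cases h : ∃ v ∈ I, ag γ v = w
  · left
    refine ⟨h.choose, h.choose_spec.1, h.choose_spec.2, ?_⟩
    unfold eg
    rw [dif_pos h]
  · by_cases h' : ∃ x ∈ γ.1.1, ag γ (C.pt x) = w
    · right
      left
      refine ⟨h'.choose, h'.choose_spec.1, h'.choose_spec.2, ?_⟩
      unfold eg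
      rw [dif_neg h, dif_pos h']
    · right
      right
      unfold eg
      rw [dif_neg h, dif_neg h']

theorem eg_inj (γ : Gm C) : Function.Injective (eg C I Wg ag γ) := by
  intro w w' h
  rcases eg_cases (I := I) (ag := ag) γ w with ⟨v, hv, h1, h2⟩ | ⟨x, hx, h1, h2⟩ | h2 <;>
  rcases eg_cases (I := I) (ag := ag) γ w' with ⟨v', hv', h3, h4⟩ | ⟨x', hx', h3, h4⟩ | h4 <;>
  rw [h2, h4] at h
  · rw [← h1, ← h3, Sum.inr.inj (Sum.inl.inj h)]
  · exact absurd (Sum.inl.inj h) (by simp)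
  · exact absurd h (by simp)
  · exact absurd (Sum.inl.inj h) (by simp)
  · rw [← h1, ← h3, Sum.inl.inj (Sum.inl.inj h)]
  · exact absurd h (by simp)
  · exact absurd h (by simp)
  · exact absurd h (by simp)
  · have h5 := Sum.inr.inj h
    exact eq_of_heq (Sigma.mk.inj h5).2

/-- the blobs meet only in the elements of the left summand -/
theorem blob {γ γ' : Gm C} {z : ZZ C Wg} (h : z ∈ Set.range (eg C I Wg ag γ))
    (h' : z ∈ Set.range (eg C I Wg ag γ')) (hne : γ ≠ γ') :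
    z ∈ Set.range (Sum.inl : W ⊕ Fin k → ZZ C Wg) := by
  obtain ⟨w, rfl⟩ := h
  obtain ⟨w', h'⟩ := h'
  rcases eg_cases (I := I) (ag := ag) γ w with ⟨v, hv, h1, h2⟩ | ⟨x, hx, h1, h2⟩ | h2
  · exact ⟨_, h2.symm⟩
  · exact ⟨_, h2.symm⟩
  · rcases eg_cases (I := I) (ag := ag) γ' w' with ⟨v', hv', h3, h4⟩ | ⟨x', hx', h3, h4⟩ | h4
    · exact ⟨_, h4.symm.trans h'⟩
    · exact ⟨_, h4.symm.trans h'⟩
    · rw [h2, h4] at h'
      exact absurd (congrArg Sigma.fst (Sum.inr.inj h')).symm hne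

/-- The structure of a realization is not empty. -/
theorem nonempty_rz (hs : SyF C I Wg Mg ag F) (hN : 1 ≤ N) (h : Fin N → ZZ C Wg) {U : Set W}
    {W' : Type} {M' : Str τ W'} {f' : W → W'} {a' : Fin k → W'}
    (hR : RzS N I (C.res U) M' f' a') : Nonempty W' := by
  rcases h0 : h ⟨0, hN⟩ with (x | v) | ⟨γ, w⟩
  · exact ⟨f' x⟩
  · exact ⟨a' v⟩
  · have h1 : ((fun _ _ => False, fun _ => none) : Str τ (Fin N) × (Fin N → Option (Fin k))) ∈
        γ.1.2 := by
      rw [← hs.typ γ]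
      refine ⟨⟨?_, fun _ => w, fun l z hz => hz.elim, fun v i hi => absurd hi (by simp)⟩,
        fun v i hi => absurd hi (by simp)⟩
      rintro S - ⟨l, z, hz, -⟩
      exact hz.elim
    have h2 := hR ∅ _ ⟨hs.dn _ _ ∅ γ.2 (Finset.empty_subset _), fun x hx => absurd hx (by simp)⟩
      a' (fun _ _ => rfl) (fun x hx => absurd hx (by simp))
    have h3 : ((fun _ _ => False, fun _ => none) : Str τ (Fin N) × (Fin N → Option (Fin k))) ∈
        rse ((∅ : Finset W).image C.pt ∪ I) γ.1.2 := ⟨h1, fun v i hi => absurd hi (by simp)⟩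
    rw [← h2] at h3
    obtain ⟨⟨-, f, -, -⟩, -⟩ := h3
    exact ⟨f ⟨0, hN⟩⟩

/-- Key lemma. -/
theorem key (hGLU : Pool.Agent.H53.GM.T_GLU) (hGL2 : Pool.Agent.H53.GM.T_GL2)
    (hs : SyF C I Wg Mg ag F) (har : ∀ l, 1 ≤ τ.ar l) {D : Str τ (Fin N)} {h : Fin N → ZZ C Wg}
    (hh : IsHom D (Can C I Wg Mg ag) h) {J : Type} (ρ₀ : Fin N → Option J) (hRC : RC D ρ₀)
    (hρ : ∀ v, ρ₀ v ≠ none → h v ∈ Set.range (Sum.inl : W ⊕ Fin k → ZZ C Wg)) {U : Set W}
    (hU : ∀ v x, h v = Sum.inl (Sum.inl x) → x ∈ U) {W' : Type} {M' : Str τ W'} {f' : W → W'}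
    {a' : Fin k → W'} (hR : RzS N I (C.res U) M' f' a') (w₀ : W') :
    ∃ h' : Fin N → W', IsHom D M' h' ∧
      ∀ v, (∀ x, h v = Sum.inl (Sum.inl x) → h' v = f' x) ∧
        ∀ j, h v = Sum.inl (Sum.inr j) → h' v = a' j := by
  let φ : ZZ C Wg → W' := Sum.elim (Sum.elim f' a') (fun _ => w₀)
  have b1 : ∀ (γ γ' : Gm C) (z : ZZ C Wg), z ∈ Set.range (eg C I Wg ag γ) →
      z ∈ Set.range (eg C I Wg ag γ') → γ ≠ γ' →
      z ∈ Set.range (Sum.inl : W ⊕ Fin k → ZZ C Wg) := fun γ γ' z h1 h2 h3 => blob h1 h2 h3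
  have b2 : ∀ (l : Fin τ.m) (z : Fin (τ.ar l) → ZZ C Wg), Can C I Wg Mg ag l z →
      ∃ γ, imS (Mg γ) (eg C I Wg ag γ) l z := fun l z hz => hz
  have b3 : ∀ (γ : Gm C) (l : Fin τ.m) (z : Fin (τ.ar l) → ZZ C Wg),
      imS (Mg γ) (eg C I Wg ag γ) l z → ∀ a, z a ∈ Set.range (eg C I Wg ag γ) := by
    rintro γ l z ⟨y, -, rfl⟩ a
    exact ⟨y a, rfl⟩
  obtain ⟨h', h1, h2⟩ := hGLU τ N (ZZ C Wg) W' (Gm C) (fun γ => imS (Mg γ) (eg C I Wg ag γ))
    (fun γ => Set.range (eg C I Wg ag γ)) (Set.range Sum.inl) (Can C I Wg Mg ag) M' φ D h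
    b1 b2 b3 hh (by
      intro γ
      rcases isEmpty_or_nonempty (Wg γ) with hem | ⟨⟨x₀⟩⟩
      · refine ⟨fun v => φ (h v), fun l z hz => ?_, fun v _ _ => rfl⟩
        obtain ⟨-, y, -, -⟩ := hz
        exact hem.elim (y ⟨0, har l⟩)
      · let ρ : Fin N → Option (Fin k) := fun v =>
          if hv : ∃ i ∈ I, h v = Sum.inl (Sum.inr i) then some hv.choose
          else if hx : ∃ x ∈ γ.1.1, h v = Sum.inl (Sum.inl x) then some (C.pt hx.choose)
          else none
        have r1 : ∀ v, ∀ i ∈ I, h v = Sum.inl (Sum.inr i) → ρ v = some i := by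
          intro v i hi hv
          have h3 : ∃ i ∈ I, h v = Sum.inl (Sum.inr i) := ⟨i, hi, hv⟩
          simp only [ρ]
          rw [dif_pos h3]
          have h4 := h3.choose_spec.2.symm.trans hv
          rw [Sum.inr.inj (Sum.inl.inj h4)]
        have r2 : ∀ v, ∀ x ∈ γ.1.1, h v = Sum.inl (Sum.inl x) → ρ v = some (C.pt x) := by
          intro v x hx hv
          have h3 : ¬ ∃ i ∈ I, h v = Sum.inl (Sum.inr i) := by
            rintro ⟨i, -, h4⟩
            exact absurd (Sum.inl.inj (hv.symm.trans h4)) (by simp)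
          have h5 : ∃ x ∈ γ.1.1, h v = Sum.inl (Sum.inl x) := ⟨x, hx, hv⟩
          simp only [ρ]
          rw [dif_neg h3, dif_pos h5]
          have h4 := h5.choose_spec.2.symm.trans hv
          rw [Sum.inl.inj (Sum.inl.inj h4)]
        have r3 : ∀ v j, ρ v = some j → (j ∈ I ∧ h v = Sum.inl (Sum.inr j)) ∨
            ∃ x ∈ γ.1.1, h v = Sum.inl (Sum.inl x) ∧ j = C.pt x := by
          intro v j hj
          by_cases h3 : ∃ i ∈ I, h v = Sum.inl (Sum.inr i)
          · obtain ⟨i, hi, hv⟩ := h3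
            have h4 := (r1 v i hi hv).symm.trans hj
            rw [← Option.some.inj h4]
            exact Or.inl ⟨hi, hv⟩
          · by_cases h5 : ∃ x ∈ γ.1.1, h v = Sum.inl (Sum.inl x)
            · obtain ⟨x, hx, hv⟩ := h5
              have h4 := (r2 v x hx hv).symm.trans hj
              exact Or.inr ⟨x, hx, hv, (Option.some.inj h4).symm⟩
            · exfalso
              simp only [ρ] at hj
              rw [dif_neg h3, dif_neg h5] at hj
              exact absurd hj (by simp)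
        have hRC' : RC (sub D h (imS (Mg γ) (eg C I Wg ag γ))) ρ :=
          hGL2 τ N (ZZ C Wg) (Gm C) J (Fin k) (fun γ => imS (Mg γ) (eg C I Wg ag γ))
            (fun γ => Set.range (eg C I Wg ag γ)) (Set.range Sum.inl) (Can C I Wg Mg ag) D h ρ₀
            har b1 b2 b3 hh hRC hρ γ ρ (by
              intro v hK hB hn
              obtain ⟨q, hq⟩ := hK
              obtain ⟨w, hw⟩ := hB
              rcases eg_cases (I := I) (ag := ag) γ w with
                ⟨i, hi, h3, h4⟩ | ⟨x, hx, h3, h4⟩ | h4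
              · rw [r1 v i hi (hw.symm.trans h4)] at hn
                exact absurd hn (by simp)
              · rw [r2 v x hx (hw.symm.trans h4)] at hn
                exact absurd hn (by simp)
              · exact absurd (hq.trans (hw.symm.trans h4)) (by simp))
        obtain ⟨fγ, hf1, hf2⟩ := pull_hom (M := Mg γ) (eg_inj (I := I) (ag := ag) γ) x₀
          (D := sub D h (imS (Mg γ) (eg C I Wg ag γ))) (h := h) (fun l z hz => hz.2)
        -- the part is a piece of the type of the guard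
        have m1 : ((sub D h (imS (Mg γ) (eg C I Wg ag γ)), ρ) :
            Str τ (Fin N) × (Fin N → Option (Fin k))) ∈ γ.1.2 := by
          rw [← hs.typ γ]
          refine ⟨⟨hRC', fγ, hf1, fun v j hj => ?_⟩, fun v j hj => ?_⟩
          · rcases r3 v j hj with ⟨h3, h4⟩ | ⟨x, hx, h4, rfl⟩
            · exact hf2 v _ (h4.trans (eg_I hs γ h3).symm)
            · exact hf2 v _ (h4.trans (eg_g hs γ hx).symm)
          · rcases r3 v j hj with ⟨h3, h4⟩ | ⟨x, hx, h4, rfl⟩
            · exact Finset.mem_union_right _ h3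
            · exact Finset.mem_union_left _ (Finset.mem_image_of_mem _ hx)
        let g' : Finset W := γ.1.1.filter (fun x => x ∈ U)
        have hg' : g' ⊆ γ.1.1 := Finset.filter_subset _ _
        have hgd := hs.dn _ _ g' γ.2 hg'
        have m2 : ((sub D h (imS (Mg γ) (eg C I Wg ag γ)), ρ) :
            Str τ (Fin N) × (Fin N → Option (Fin k))) ∈ rse (g'.image C.pt ∪ I) γ.1.2 := by
          refine ⟨m1, fun v j hj => ?_⟩
          rcases r3 v j hj with ⟨h3, h4⟩ | ⟨x, hx, h4, rfl⟩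
          · exact Finset.mem_union_right _ h3
          · exact Finset.mem_union_left _ (Finset.mem_image_of_mem _
              (Finset.mem_filter.2 ⟨hx, hU v x h4⟩))
        have hR' := hR g' _ ⟨hgd, fun x hx => (Finset.mem_filter.1 hx).2⟩ (bb C g' f' a')
          (fun v hv => bb_not (hs.dis _ _ hgd v hv)) (fun x hx => bb_pt (hs.tr _ _ hgd) hx)
        rw [← hR'] at m2
        obtain ⟨⟨-, h'', h3, h4⟩, -⟩ := m2
        refine ⟨h'', h3, ?_⟩
        intro v hK hB
        obtain ⟨q, hq⟩ := hK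
        obtain ⟨w, hw⟩ := hB
        rcases eg_cases (I := I) (ag := ag) γ w with
          ⟨i, hi, h5, h6⟩ | ⟨x, hx, h5, h6⟩ | h6
        · have h7 : h v = Sum.inl (Sum.inr i) := hw.symm.trans h6
          rw [h4 v i (r1 v i hi h7), h7]
          exact bb_not (hs.dis _ _ hgd i hi)
        · have h7 : h v = Sum.inl (Sum.inl x) := hw.symm.trans h6
          rw [h4 v _ (r2 v x hx h7), h7]
          exact bb_pt (hs.tr _ _ hgd) (Finset.mem_filter.2 ⟨hx, hU v x h7⟩)
        · exact absurd (hq.trans (hw.symm.trans h6)) (by simp))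
  refine ⟨h', h1, fun v => ⟨fun x hx => ?_, fun j hj => ?_⟩⟩
  · rw [h2 v ⟨_, hx.symm⟩, hx]
    rfl
  · rw [h2 v ⟨_, hj.symm⟩, hj]
    rfl

end can

theorem img_eq {W : Type} {k : ℕ} (f : W → Fin k) (g : Finset W) :
    @Finset.image W (Fin k) (fun a b => Classical.propDecidable (a = b)) f g =
      @Finset.image W (Fin k) (instDecidableEqFin k) f g :=
  Finset.ext fun v =>
    (@Finset.mem_image W (Fin k) (fun a b => Classical.propDecidable (a = b)) f g v).trans
      (@Finset.mem_image W (Fin k) (instDecidableEqFin k) f g v).symm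

/-- Row B2 -/
theorem pf_B2X (hTPB : Pool.Agent.H53.GM.T_TPB) (hGLU : Pool.Agent.H53.GM.T_GLU)
    (hGL2 : Pool.Agent.H53.GM.T_GL2) (hGL3 : Pool.Agent.H53.GM.T_GL3)
    (hRLI : Pool.Agent.H53.GM.T_RLI) : Pool.Agent.H53.GX.T_B2X := by
  intro τ N k F I hyp W _ C hC hloc
  have hfinT := finite_ty τ N (Fin k)
  have hfinG : Finite (Gm C) := inferInstance
  have har : ∀ l, 1 ≤ τ.ar l := fun l => (hyp.ar l).1
  have hok : ∀ γ : Gm C, ∃ P, Rl F P ∧ rse (γ.1.1.image C.pt ∪ I) P = γ.1.2 := by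
    intro γ
    obtain ⟨-, P, h1, h2⟩ := hC.ok _ _ γ.2
    refine ⟨P, h1, ?_⟩
    rw [← img_eq]
    exact h2
  choose P hP1 hP2 using hok
  choose Wg hWg Mg ag hinj hval htyp using fun γ : Gm C =>
    hRLI τ N F (Fin k) (P γ) (hP1 γ)
  have hs : SyF C I Wg Mg ag F := by
    refine ⟨hC.tr, ?_, ?_, hinj, hval, fun γ => by rw [htyp]; exact hP2 γ⟩
    · intro g t hg v hv x hx hxv
      exact Finset.disjoint_left.1 (hC.ok g t hg).1
        ((@Finset.mem_image W (Fin k) (fun a b => Classical.propDecidable (a = b)) C.pt g v).2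
          ⟨x, hx, hxv⟩) hv
    · intro g t g' hg hgg'
      have h1 := hC.dn g t g' hg hgg'
      change C.gd g' (rse (@Finset.image W (Fin k)
        (fun a b => Classical.propDecidable (a = b)) C.pt g' ∪ I) t) at h1
      rw [img_eq] at h1
      exact h1
  have hreal : ∀ h : Fin N → ZZ C Wg, ∃ (U : Set W) (W' : Type) (M' : Str τ W') (f' : W → W')
      (a' : Fin k → W'), (∀ v x, h v = Sum.inl (Sum.inl x) → x ∈ U) ∧ Val F M' ∧
      RzS N I (C.res U) M' f' a' ∧ Nonempty W' := by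
    intro h
    have hfW : Fintype W := Fintype.ofFinite W
    let U : Finset W := Finset.univ.filter (fun x => ∃ v, h v = Sum.inl (Sum.inl x))
    have hcard : U.card ≤ N := by
      have h1 : U.card ≤ (Finset.univ.image h).card := by
        refine Finset.card_le_card_of_injOn
          (fun x => (Sum.inl (Sum.inl x) : ZZ C Wg)) (fun x hx => ?_) (fun x _ y _ hxy => ?_)
        · obtain ⟨v, hv⟩ := (Finset.mem_filter.1 (Finset.mem_coe.1 hx)).2
          exact Finset.mem_coe.2 (Finset.mem_image.2 ⟨v, Finset.mem_univ _, hv⟩)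
        · exact Sum.inl.inj (Sum.inl.inj hxy)
      have h2 : (Finset.univ.image h).card ≤ N := by
        refine Finset.card_image_le.trans ?_
        rw [Finset.card_univ, Fintype.card_fin]
      exact h1.trans h2
    obtain ⟨W', -, M', f', a', h1, h2⟩ := hloc U hcard
    exact ⟨(U : Set W), W', M', f', a',
      fun v x hv => Finset.mem_coe.2 (Finset.mem_filter.2 ⟨Finset.mem_univ _, v, hv⟩), h1, h2,
      nonempty_rz hs hyp.pos h h2⟩
  refine ⟨ZZ C Wg, inferInstance, Can C I Wg Mg ag, fun x => Sum.inl (Sum.inl x),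
    fun v => Sum.inl (Sum.inr v), ?_, ?_⟩
  · intro D hD h hh
    obtain ⟨U, W', M', f', a', hU, hV', hR, ⟨w₀⟩⟩ := hreal h
    rcases hGL3 τ N (ZZ C Wg) (Gm C) (fun γ => imS (Mg γ) (eg C I Wg ag γ))
      (fun γ => Set.range (eg C I Wg ag γ)) (Set.range Sum.inl) (Can C I Wg Mg ag) D h har
      (fun γ γ' z h1 h2 h3 => blob h1 h2 h3) (fun l z hz => hz)
      (by
        rintro γ l z ⟨y, -, rfl⟩ a
        exact ⟨y a, rfl⟩) hh (hyp.conn D hD) (hyp.atom D hD) with h1 | ⟨γ, h1⟩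
    · obtain ⟨h', h2, -⟩ := key hGLU hGL2 hs har hh _ h1 (fun v hv => by
        by_contra hn
        exact hv (if_neg hn)) hU hR w₀
      exact hV' D hD h' h2
    · obtain ⟨l, z, hz, -⟩ := hyp.atom D hD
      obtain ⟨y, -, -⟩ := h1 l z hz
      obtain ⟨f, hf, -⟩ := pull_hom (eg_inj (I := I) (ag := ag) γ) (y ⟨0, har l⟩) h1
      exact hval γ D hD f hf
  · intro g t hg b hb1 hb2
    apply Set.Subset.antisymm
    · rintro ⟨D, ρ⟩ ⟨⟨hRC, h, hh, hr⟩, hrt⟩
      change ∀ v i, ρ v = some i → h v = b i at hr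
      change ∀ v i, ρ v = some i → i ∈ g.image C.pt ∪ I at hrt
      obtain ⟨U, W', M', f', a', hU, hV', hR, ⟨w₀⟩⟩ := hreal h
      -- the roots
      have hroot : ∀ v i, ρ v = some i → (i ∈ I ∧ h v = Sum.inl (Sum.inr i)) ∨
          ∃ x ∈ g, h v = Sum.inl (Sum.inl x) ∧ i = C.pt x := by
        intro v i hv
        rcases Finset.mem_union.1 (hrt v i hv) with h1 | h1
        · obtain ⟨x, hx, rfl⟩ := Finset.mem_image.1 h1
          exact Or.inr ⟨x, hx, (hr v _ hv).trans (hb2 x hx), rfl⟩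
        · exact Or.inl ⟨h1, (hr v i hv).trans (hb1 i h1)⟩
      obtain ⟨h', h2, h3⟩ := key hGLU hGL2 hs har hh ρ hRC (fun v hv => by
        obtain ⟨i, hi⟩ := Option.ne_none_iff_exists'.1 hv
        rcases hroot v i hi with ⟨-, h1⟩ | ⟨x, -, h1, -⟩
        · exact ⟨_, h1.symm⟩
        · exact ⟨_, h1.symm⟩) hU hR w₀
      let g' : Finset W := g.filter (fun x => x ∈ U)
      have hgd := hs.dn g t g' hg (Finset.filter_subset _ _)
      have hR' := hR g' _ ⟨hgd, fun x hx => (Finset.mem_filter.1 hx).2⟩ (bb C g' f' a')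
        (fun v hv => bb_not (hs.dis _ _ hgd v hv)) (fun x hx => bb_pt (hs.tr _ _ hgd) hx)
      have h4 : ((D, ρ) : Str τ (Fin N) × (Fin N → Option (Fin k))) ∈
          rse (g'.image C.pt ∪ I) (tp N M' (bb C g' f' a')) := by
        refine ⟨⟨hRC, h', h2, fun v i hv => ?_⟩, fun v i hv => ?_⟩
        · rcases hroot v i hv with ⟨hi, h1⟩ | ⟨x, hx, h1, rfl⟩
          · rw [(h3 v).2 i h1]
            exact (bb_not (hs.dis _ _ hgd i hi)).symm
          · rw [(h3 v).1 x h1]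
            exact (bb_pt (hs.tr _ _ hgd) (Finset.mem_filter.2 ⟨hx, hU v x h1⟩)).symm
        · rcases hroot v i hv with ⟨hi, h1⟩ | ⟨x, hx, h1, rfl⟩
          · exact Finset.mem_union_right _ hi
          · exact Finset.mem_union_left _ (Finset.mem_image_of_mem _
              (Finset.mem_filter.2 ⟨hx, hU v x h1⟩))
      have h5 := (Set.ext_iff.1 hR' (D, ρ)).1 h4
      exact h5.1
    · have h1 := hs.typ ⟨(g, t), hg⟩
      change rse (g.image C.pt ∪ I) _ = t at h1
      have h2 : rse (g.image C.pt ∪ I) (tp N (Can C I Wg Mg ag)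
          (fun v => eg C I Wg ag ⟨(g, t), hg⟩ (ag ⟨(g, t), hg⟩ v))) =
          rse (g.image C.pt ∪ I) (tp N (Can C I Wg Mg ag) b) := by
        refine (hTPB τ N _ _ (Fin k) (Fin k) (Can C I Wg Mg ag) (Can C I Wg Mg ag) _).2.2.1 b
          _ fun v hv => ?_
        rcases Finset.mem_union.1 hv with h3 | h3
        · obtain ⟨x, hx, rfl⟩ := Finset.mem_image.1 h3
          rw [hb2 x hx]
          exact eg_g hs ⟨(g, t), hg⟩ hx
        · rw [hb1 v h3]
          exact eg_I hs ⟨(g, t), hg⟩ h3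
      rw [← h2]
      intro q hq
      rw [← h1] at hq
      exact rse_mono ((hTPB τ N _ _ (Fin k) (Fin k) (Mg ⟨(g, t), hg⟩) (Can C I Wg Mg ag)
        (ag ⟨(g, t), hg⟩)).1 (eg C I Wg ag ⟨(g, t), hg⟩)
        (fun l z hz => ⟨⟨(g, t), hg⟩, z, hz, rfl⟩)) hq

end

end Pool.Agent.H53.GXR.B2
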