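import Pool.Agent.H53.GX.Targets

/-!
Module KKG of the board `gm2_modules` (MP_6ab439_lc): the system of the sheets is good.
-/

set_option autoImplicit false

namespace Pool.Agent.H53.GXR.KG

open Pool.Agent.H53.GX Pool.Agent.H68.BP Pool.Agent.H58.SF Pool.Agent.H53.GC Pool.Agent.H53.GR Pool.Agent.H53.GM
open Classical

theorem img_mem {α β : Type} (i : DecidableEq β) (f : α → β) (s : Finset α) {x : α} (hx : x ∈ s) :
    f x ∈ @Finset.image α β i f s := Finset.mem_image_of_mem f hx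

theorem img_empty {α β : Type} (i : DecidableEq β) (f : α → β) (s : Finset α)
    (h : @Finset.image α β i f s = ∅) : s = ∅ := Finset.image_eq_empty.1 h

theorem img_id {α : Type} (i : DecidableEq α) (s : Finset α) :
    @Finset.image α α i (fun x => x) s = s := Finset.image_id'

/-- below the cut `T` -/
def Bel {L : ℕ} (T : Fin 3 → Fin L) (ρ : Rg L) : Prop :=
  ρ = none ∨ ∃ q : Fin L × Fin 3, ρ = some (some q) ∧ q.1 < T q.2

/-- above the cut `T` -/
def Abv {L : ℕ} (T : Fin 3 → Fin L) (ρ : Rg L) : Prop :=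
  ρ = some none ∨ ∃ q : Fin L × Fin 3, ρ = some (some q) ∧ T q.2 < q.1

theorem bel_or {L : ℕ} (T : Fin 3 → Fin L) (ρ : Rg L)
    (h : ∀ r, ρ ≠ some (some (T r, r))) : Bel T ρ ∨ Abv T ρ := by
  rcases ρ with _ | _ | ⟨t, r⟩
  · exact Or.inl (Or.inl rfl)
  · exact Or.inr (Or.inl rfl)
  · rcases lt_trichotomy t (T r) with h1 | h1 | h1
    · exact Or.inl (Or.inr ⟨(t, r), rfl, h1⟩)
    · exact absurd (by rw [h1]) (h r)
    · exact Or.inr (Or.inr ⟨(t, r), rfl, h1⟩)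

theorem not_both {L : ℕ} (T : Fin 3 → Fin L) (ρ : Rg L) (h : Bel T ρ) (h' : Abv T ρ) : False := by
  rcases h with rfl | ⟨q, rfl, hq⟩
  · rcases h' with h | ⟨q, h, _⟩ <;> simp at h
  · rcases h' with h | ⟨q', h, hq'⟩
    · simp at h
    · simp only [Option.some.injEq] at h
      subst h
      exact lt_asymm hq hq'

theorem lev_bel {L : ℕ} (T : Fin 3 → Fin L) (ρ : Rg L) (r : Fin 3) (h : Bel T ρ)
    (hr : inR r ρ) : lev ρ ≤ (T r : ℕ) := by
  rcases h with rfl | ⟨q, rfl, hq⟩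
  · exact Nat.zero_le _
  · have : q.2 = r := hr
    rw [this] at hq
    exact hq

theorem lev_abv {L : ℕ} (T : Fin 3 → Fin L) (ρ : Rg L) (r : Fin 3) (h : Abv T ρ)
    (hr : inR r ρ) : (T r : ℕ) + 2 ≤ lev ρ := by
  rcases h with rfl | ⟨q, rfl, hq⟩
  · have := (T r).isLt
    show (T r : ℕ) + 2 ≤ L + 1
    omega
  · have : q.2 = r := hr
    rw [this] at hq
    have h2 : (T r : ℕ) < (q.1 : ℕ) := hq
    show (T r : ℕ) + 2 ≤ (q.1 : ℕ) + 1
    omega

/-- a level without elements of `U` -/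
theorem free_level {L N : ℕ} {W : Type} (hL : N + 1 ≤ L) (p : W → Rg L) (U : Finset W)
    (hU : U.card ≤ N) (r : Fin 3) : ∃ t : Fin L, ∀ x ∈ U, p x ≠ some (some (t, r)) := by
  let t0 : Fin L := ⟨0, by omega⟩
  let f : W → Fin L := fun x => match p x with
    | some (some q) => q.1
    | _ => t0
  obtain ⟨t, -, ht⟩ := Finset.exists_mem_notMem_of_card_lt_card
    (s := U.image f) (t := (Finset.univ : Finset (Fin L))) (by
      rw [Finset.card_univ, Fintype.card_fin]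
      exact lt_of_le_of_lt (Finset.card_image_le.trans hU) hL)
  refine ⟨t, fun x hx h => ht ?_⟩
  rw [Finset.mem_image]
  refine ⟨x, hx, ?_⟩
  show (match p x with
    | some (some q) => q.1
    | _ => t0) = t
  rw [h]

theorem pf_KGX (hKKS : Pool.Agent.H53.GX.T_KSX) (hKKZ : Pool.Agent.H53.GX.T_KZX)
    (hKKT : Pool.Agent.H53.GX.T_KTX) : Pool.Agent.H53.GX.T_KGX := by
  intro τ N k L F I a₀ W _ C hHyp hL ha hC hG hA
  have hL1 : 1 ≤ L := by omega
  have hS : IsSys (bX F I) (KK C) := hKKS τ N k L F I a₀ W C hL1 ha hC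
  refine hA.g2 _ _ hS fun U hU => ?_
  by_cases hg : ∃ g κ, C.gd g κ
  swap
  · refine hA.g1 _ _ _ (dz C 0) Prod.fst ?_ (hG.1 0)
    rintro G t ⟨⟨g, κ, r, c, h1, -⟩, -⟩
    exact absurd ⟨g, κ, h1⟩ hg
  obtain ⟨g₁, κ₁, h₁⟩ := hg
  have h0 := hC.dn g₁ κ₁ ∅ h₁ (Finset.empty_subset _)
  choose T hT using free_level hL (fun x : W × Fin 6 => (C.pt x.1).2) U hU
  refine hA.g3 _ ((KK C).res (U : Set (W × Fin 6))) {x | x ∈ U ∧ Bel T (C.pt x.1).2}
    {x | x ∈ U ∧ Abv T (C.pt x.1).2} ∅ _ (hS.res _)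
    ⟨⟨∅, _, 0, 0, h0, fun x hx => absurd hx (Finset.notMem_empty x), by simp, rfl⟩,
      fun x hx => absurd hx (Finset.notMem_empty x)⟩ ?_ ?_ ?_ ?_
  · intro x
    constructor
    · intro hx
      exact absurd hx (Finset.notMem_empty x)
    · rintro ⟨h1, h2⟩
      exact (not_both T _ h1.2 h2.2).elim
  · rintro G t ⟨⟨g, κ, r, c, h1, h2, rfl, -⟩, h3⟩
    by_contra hcon
    rw [not_or] at hcon
    obtain ⟨hc1, hc2⟩ := hcon
    push Not at hc1 hc2
    obtain ⟨x, hx, hx'⟩ := hc1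
    obtain ⟨y, hy, hy'⟩ := hc2
    have hxU : x ∈ U := h3 x hx
    have hyU : y ∈ U := h3 y hy
    have hxA : Abv T (C.pt x.1).2 := by
      rcases bel_or T (C.pt x.1).2 (fun r => hT r x hxU) with h | h
      · exact absurd ⟨hxU, h⟩ hx'
      · exact h
    have hyB : Bel T (C.pt y.1).2 := by
      rcases bel_or T (C.pt y.1).2 (fun r => hT r y hyU) with h | h
      · exact h
      · exact absurd ⟨hyU, h⟩ hy'
    rw [Finset.mem_image] at hx hy
    obtain ⟨x', hx'g, rfl⟩ := hx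
    obtain ⟨y', hy'g, rfl⟩ := hy
    rcases hC.ok g κ h1 with ⟨h, -⟩ | ⟨-, h⟩
    · rw [img_empty _ _ _ h] at hx'g
      exact absurd hx'g (Finset.notMem_empty _)
    · have hadj := (h.adj (C.pt x') (img_mem _ _ _ hx'g) (C.pt y') (img_mem _ _ _ hy'g)).1
      have l1 : (T r : ℕ) + 2 ≤ lev (C.pt x').2 := lev_abv T _ r hxA (h2 x' hx'g)
      have l2 : lev (C.pt y').2 ≤ (T r : ℕ) := lev_bel T _ r hyB (h2 y' hy'g)
      omega
  · refine hA.g1 _ _ _ _ (fun x => x) ?_ (hKKZ τ N k L F I a₀ W C hHyp hL1 ha hC hG.1 hA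
      {x | x ∈ U ∧ Bel T (C.pt x.1).2} ?_)
    · intro g κ hg
      refine ⟨?_, fun x _ => rfl⟩
      rw [img_id _ g]
      exact ⟨hg.1.1, hg.2⟩
    · rintro x ⟨-, h | ⟨q, h, -⟩⟩ <;> rw [h] <;> simp
  · refine hA.g1 _ _ _ _ (fun x => x) ?_ (hKKT τ N k L F I a₀ W C hHyp hL1 ha hC hG.2 hA
      {x | x ∈ U ∧ Abv T (C.pt x.1).2} ?_)
    · intro g κ hg
      refine ⟨?_, fun x _ => rfl⟩
      rw [img_id _ g]
      exact ⟨hg.1.1, hg.2⟩
    · rintro x ⟨-, h | ⟨q, h, -⟩⟩ <;> rw [h] <;> simp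

end Pool.Agent.H53.GXR.KG
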