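import Pool.Agent.H53.GX.Targets

/-!
# Row KKT: the part of the sheets above the cut
-/

set_option autoImplicit false

namespace Pool.Agent.H53.GXR.KT

open Pool.Agent.H53.GX Pool.Agent.H68.BP Pool.Agent.H58.SF Pool.Agent.H53.GC Pool.Agent.H53.GR Pool.Agent.H53.GM
open Classical

noncomputable section

variable {τ : Sig} {N k L : ℕ} {W : Type}

/-- the disjoint union of the two systems -/
def kktS (C : Sy (Fin k × Rg L) (Kd τ N k) W) : Sy (Fin k) (Ty τ N (Fin k)) (Fin 2 × W) :=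
  ⟨fun x => (C.pt x.2).1, fun G t => ∃ (g : Finset W) (d : Fin 2), (ds C d).gd g t ∧
    G = g.image (fun x => (d, x))⟩

/-- the sheet -/
def kktJ (g : Rg L) (c : Fin 6) : Fin 2 :=
  match g with
  | none => 0
  | some none => if c = 0 then 0 else 1
  | some (some q) => if pat q.2 (0 : Fin 6) 1 c = 0 then 0 else 1

theorem kkt_ime {α β : Type} {i : DecidableEq β} (f : α → β) :
    @Finset.image _ _ i f ∅ = ∅ := rfl

theorem kkt_ii {α β : Type} {i1 i2 : DecidableEq β} (f : α → β) (g : Finset α) :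
    @Finset.image _ _ i1 f g = @Finset.image _ _ i2 f g := by
  ext y
  simp only [Finset.mem_image]

theorem kkt_tr {γ : Type} {P : Finset γ → Prop} {a b : Finset γ} (h : a = b) (hb : P b) :
    P a := by
  rw [h]
  exact hb

theorem kkt_empty {F : Set (Str τ (Fin N))} {I : Finset (Fin k)} {a₀ : Ty τ N (Fin k)}
    {C : Sy (Fin k × Rg L) (Kd τ N k) W} (hC : IsSys (gX L F I a₀) C) {κ : Kd τ N k}
    (h : C.gd ∅ κ) : κ = (fun _ => a₀, fun _ => a₀) := by
  rcases hC.ok ∅ κ h with ⟨_, h1⟩ | ⟨h1, _⟩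
  · exact h1
  · exact (h1 (kkt_ime _)).elim

theorem kkt_ds_empty {F : Set (Str τ (Fin N))} {I : Finset (Fin k)} {a₀ : Ty τ N (Fin k)}
    {C : Sy (Fin k × Rg L) (Kd τ N k) W} (hC : IsSys (gX L F I a₀) C) {t : Ty τ N (Fin k)}
    {d : Fin 2} (h : (ds C d).gd ∅ t) : t = a₀ := by
  obtain ⟨κ, h1, _, h3⟩ := h
  rw [h3, kkt_empty hC h1]

theorem kkt_im {α β γ : Type} {i0 : DecidableEq β} {i1 : DecidableEq γ} {i2 : DecidableEq γ}
    (g : Finset α) (f : α → β) (h : β → γ) (e : α → γ) (he : ∀ x ∈ g, h (f x) = e x) :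
    @Finset.image _ _ i1 h (@Finset.image _ _ i0 f g) = @Finset.image _ _ i2 e g := by
  ext y
  simp only [Finset.mem_image]
  constructor
  · rintro ⟨_, ⟨x, hx, rfl⟩, rfl⟩
    exact ⟨x, hx, (he x hx).symm⟩
  · rintro ⟨x, hx, rfl⟩
    exact ⟨f x, ⟨x, hx, rfl⟩, he x hx⟩

theorem kkt_im' {α β γ : Type} {i0 : DecidableEq β} {i1 : DecidableEq γ} {i2 : DecidableEq γ}
    {G : Finset β} {g : Finset α} {f : α → β} (hG : G = @Finset.image _ _ i0 f g) (h : β → γ)
    (e : α → γ) (he : ∀ x ∈ g, h (f x) = e x) :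
    @Finset.image _ _ i1 h G = @Finset.image _ _ i2 e g := by
  subst hG
  exact kkt_im g f h e he

theorem kkt_inj (d : Fin 2) : Function.Injective (fun x : W => (d, x)) :=
  fun _ _ h => (Prod.ext_iff.1 h).2

theorem kkt_sys {F : Set (Str τ (Fin N))} {I : Finset (Fin k)} {a₀ : Ty τ N (Fin k)}
    {C : Sy (Fin k × Rg L) (Kd τ N k) W} (hC : IsSys (gX L F I a₀) C)
    (hs : ∀ d, IsSys (bX F I) (ds C d)) : IsSys (bX F I) (kktS C) := by
  refine ⟨?_, ?_, ?_, ?_⟩
  · rintro G t ⟨g, d, h1, rfl⟩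
    intro x hx y hy hxy
    rw [Finset.coe_image] at hx hy
    obtain ⟨x', hx', rfl⟩ := hx
    obtain ⟨y', hy', rfl⟩ := hy
    have h2 : x' = y' := (hs d).tr g t h1 hx' hy' hxy
    rw [h2]
  · rintro G t G' ⟨g, d, h1, rfl⟩ hG
    have h2 : G' = (g.filter (fun x => (d, x) ∈ G')).image (fun x => (d, x)) := by
      ext y
      constructor
      · intro hy
        obtain ⟨x, hx, rfl⟩ := Finset.mem_image.1 (hG hy)
        exact Finset.mem_image.2 ⟨x, Finset.mem_filter.2 ⟨hx, hy⟩, rfl⟩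
      · intro hy
        obtain ⟨x, hx, rfl⟩ := Finset.mem_image.1 hy
        exact (Finset.mem_filter.1 hx).2
    refine ⟨g.filter (fun x => (d, x) ∈ G'), d, ?_, h2⟩
    have h3 := (hs d).dn g t _ h1 (Finset.filter_subset (fun x => (d, x) ∈ G') g)
    exact kkt_tr (P := fun s => (ds C d).gd (g.filter (fun x => (d, x) ∈ G')) ((bX F I).rs s t))
      (kkt_im' h2 (kktS C).pt (ds C d).pt (fun _ _ => rfl)) h3
  · rintro G t t' ⟨g, d, h1, rfl⟩ ⟨g', d', h1', h2⟩
    rcases g.eq_empty_or_nonempty with rfl | ⟨x, hx⟩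
    · have h3 : g' = ∅ := by
        rw [Finset.image_empty] at h2
        exact Finset.image_eq_empty.1 h2.symm
      rw [h3] at h1'
      rw [kkt_ds_empty hC h1, kkt_ds_empty hC h1']
    · have h3 : (d, x) ∈ g'.image (fun x => (d', x)) := by
        rw [← h2]
        exact Finset.mem_image_of_mem _ hx
      obtain ⟨x', _, h4⟩ := Finset.mem_image.1 h3
      have h5 : d' = d := (Prod.ext_iff.1 h4).1
      subst h5
      have h6 : g = g' := Finset.image_injective (kkt_inj d') h2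
      subst h6
      exact (hs d').un g t t' h1 h1'
  · rintro G t ⟨g, d, h1, rfl⟩
    have h2 := (hs d).ok g t h1
    exact kkt_tr (P := fun s => (bX F I).ok s t)
      (kkt_im g (fun x => (d, x)) (kktS C).pt (ds C d).pt (fun _ _ => rfl)) h2

theorem pf_KTX (hDZS : Pool.Agent.H53.GX.T_DZX) (hDSU : Pool.Agent.H53.GM.T_DSU) :
    Pool.Agent.H53.GX.T_KTX := by
  intro τ N k L F I a₀ W _ C hF hL ha hC hd hA U hU
  obtain ⟨_, hs⟩ := hDZS τ N k L F I a₀ W C ha hC
  by_cases hg : ∃ g κ, C.gd g κ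
  swap
  · refine hA.g1 _ _ _ _ (fun x : W × Fin 6 => x.1) ?_ (hd 0)
    rintro G t ⟨⟨g, κ, r, c, h1, _⟩, _⟩
    exact (hg ⟨g, κ, h1⟩).elim
  have hC0 : C.gd ∅ (fun _ => a₀, fun _ => a₀) := by
    obtain ⟨g, κ, h1⟩ := hg
    have h2 := hC.dn g κ ∅ h1 (Finset.empty_subset g)
    rw [kkt_empty hC h2] at h2
    exact h2
  have hz0 : ∀ d, (ds C d).gd ∅ a₀ := by
    intro d
    refine ⟨_, hC0, ?_, rfl⟩
    rintro ⟨v, hv⟩
    rw [Finset.image_empty] at hv
    exact Finset.notMem_empty _ hv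
  have hG2 : Gd0 F I (Fin 2 × W) (kktS C) := by
    refine hDSU (Fin k) (Ty τ N (Fin k)) (bX F I) N (Gd0 F I) hA (Fin 2) W (kktS C) a₀
      (kkt_sys hC hs) ⟨∅, 0, hz0 0, (kkt_ime _).symm⟩ ?_ ?_
    · rintro G t ⟨g, d, _, rfl⟩
      refine ⟨d, fun x hx => ?_⟩
      obtain ⟨x', _, rfl⟩ := Finset.mem_image.1 hx
      rfl
    · intro d
      refine hA.g1 _ _ _ _ (fun x : Fin 2 × W => x.2) ?_ (hd d)
      rintro G t ⟨⟨g, d', h1, rfl⟩, h2⟩
      have him : (g.image (fun x => (d', x))).image (fun x : Fin 2 × W => x.2) = g := by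
        rw [Finset.image_image]
        exact Finset.image_id'
      refine ⟨?_, fun x _ => rfl⟩
      rw [him]
      rcases g.eq_empty_or_nonempty with rfl | ⟨x, hx⟩
      · rw [kkt_ds_empty hC h1]
        exact hz0 d
      · have h3 : d' = d := h2 (d', x) (Finset.mem_image_of_mem _ hx)
        rw [← h3]
        exact h1
  refine hA.g1 _ _ _ _ (fun x : W × Fin 6 => (kktJ (C.pt x.1).2 x.2, x.1)) ?_ hG2
  rintro G t ⟨⟨g, κ, r, c, h1, h2, rfl, rfl⟩, h3⟩
  have hreg : ∀ x ∈ g, (C.pt x).2 ≠ none := fun x hx =>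
    hU _ (h3 _ (Finset.mem_image_of_mem (fun x => (x, pos (C.pt x).2 r c)) hx))
  have hd2 : ∃ d : Fin 2, d = if pat r (0 : Fin 6) 1 c = 0 then 0 else 1 := ⟨_, rfl⟩
  obtain ⟨d, hdd⟩ := hd2
  have hJ : ∀ x ∈ g, kktJ (C.pt x).2 (pos (C.pt x).2 r c) = d := by
    intro x hx
    have h4 := hreg x hx
    have h5 := h2 x hx
    rcases hp : (C.pt x).2 with _ | _ | q
    · exact (h4 hp).elim
    · rw [hdd]
      simp only [kktJ, pos, if_true]
    · rw [hp] at h5
      have h6 : q.2 = r := h5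
      rw [hdd]
      have h7 : ¬ ((some (some q) : Rg L) = some none) := by simp
      simp only [kktJ, pos, if_neg h7, h6]
  refine ⟨?_, fun x _ => rfl⟩
  refine kkt_tr (P := fun s => (kktS C).gd s _) (b := g.image (fun x => (d, x)))
    (kkt_im g (fun x => (x, pos (C.pt x).2 r c))
    (fun x : W × Fin 6 => (kktJ (C.pt x.1).2 x.2, x.1)) (fun x => (d, x)) (fun x hx => ?_)) ?_
  · change (kktJ (C.pt x).2 (pos (C.pt x).2 r c), x) = (d, x)
    rw [hJ x hx]
  have hnZ : ¬ hasZ (g.image C.pt) := by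
    rintro ⟨v, hv⟩
    obtain ⟨x, hx, h4⟩ := Finset.mem_image.1 hv
    exact hreg x hx (by rw [h4])
  have hpat : pat r (κ.2 0) (κ.2 1) c = κ.2 d := by
    rw [pat_eq_ite, hdd]
    split_ifs <;> rfl
  refine ⟨g, d, ⟨κ, h1, hnZ, ?_⟩, rfl⟩
  unfold labK
  split_ifs with hS
  · exact hpat
  · have hok : (gX L F I a₀).ok (g.image C.pt) κ :=
      kkt_tr (P := fun s => (gX L F I a₀).ok s κ) (kkt_ii C.pt g) (hC.ok g κ h1)
    rcases hok with ⟨_, h4⟩ | ⟨h4, h5⟩
    · rw [h4]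
    · obtain ⟨y, hy⟩ := Finset.nonempty_iff_ne_empty.2 h4
      obtain ⟨x, hx, rfl⟩ := Finset.mem_image.1 hy
      have hnAS : ¬ AS (g.image C.pt) := fun h6 => hS ⟨(C.pt x).1, by
        have h7 := h6.2 _ hy
        rw [← h7]
        exact hy⟩
      have hnAZ : ¬ AZ (g.image C.pt) := fun h6 => hreg x hx (h6.2 _ hy)
      rcases hp : (C.pt x).2 with _ | _ | q
      · exact (hreg x hx hp).elim
      · exact (hnAS.elim ((hS ⟨(C.pt x).1, by rw [← hp]; exact hy⟩).elim))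
      · have h6 := h2 x hx
        rw [hp] at h6
        have h7 : q.2 = r := h6
        have h8 := h5.mid hnAS hnAZ (C.pt x).1 q.1 q.2 (by
          have h9 : (some (some (q.1, q.2)) : Rg L) = (C.pt x).2 := by rw [hp]
          rw [h9]
          exact hy)
        rw [h8, h7]
        exact hpat

end

end Pool.Agent.H53.GXR.KT
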