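import Pool.Agent.H53.GX.Asm
import Pool.Agent.H14.GM.AMG
import Pool.Agent.H11.GM.ATM
import Pool.Agent.H70.GM.B1
import Pool.Agent.H14.GM.BLW
import Pool.Agent.H86.GM.CMP
import Pool.Agent.H60.GM.COL
import Pool.Agent.H39.GM.CONN
import Pool.Agent.H99.GM.CYC
import Pool.Agent.H86.GM.DSU
import Pool.Agent.H3.GM.GL2
import Pool.Agent.H85.GM.GL3
import Pool.Agent.H48.GM.GLU
import Pool.Agent.H66.GM.ITR
import Pool.Agent.H69.GM.OLK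
import Pool.Agent.H97.GM.PAD
import Pool.Agent.H21.GM.PL
import Pool.Agent.H1.GM.PLG
import Pool.Agent.H54.GM.PWG
import Pool.Agent.H34.GM.RAM
import Pool.Agent.H91.GM.RLI
import Pool.Agent.H86.GM.RM0
import Pool.Agent.H98.GM.STP
import Pool.Agent.H14.GM.TPB
import Pool.Agent.H54.GX.AXX
import Pool.Agent.H53.GXR.B2X
import Pool.Agent.H53.GXR.B3X
import Pool.Agent.H53.GXR.DZX
import Pool.Agent.H53.GXR.KGX
import Pool.Agent.H53.GXR.KSX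
import Pool.Agent.H53.GXR.KTX
import Pool.Agent.H53.GXR.KZX
import Pool.Agent.H37.GX.CEX
import Pool.Agent.H77.GX.CGX
import Pool.Agent.H33.GX.CNX
import Pool.Agent.H77.GX.CSX
import Pool.Agent.H36.GX.KAX
import Pool.Agent.H41.GX.LBX
import Pool.Agent.H40.GX.LIMX
import Pool.Agent.H35.GX.RDX
import Pool.Agent.H63.GX.REAX
import Pool.Agent.H70.GX.REBX
import Pool.Agent.H50.GX.REX
import Pool.Agent.H56.GC.OLS
import Pool.Agent.H77.GC.SEL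
import Pool.Agent.H52.GC.K3L

/-!
# Forbidden coloured patterns, no precolouring: the analytic part, closed
-/

set_option autoImplicit false

namespace Pool.Agent.H53.GXR.All

open Pool.Agent.H53.GX

theorem a_GLU : Pool.Agent.H53.GM.T_GLU := Pool.Agent.H48.GM.pf_GLU
theorem a_GL2 : Pool.Agent.H53.GM.T_GL2 := Pool.Agent.H3.GM.pf_GL2
theorem a_GL3 : Pool.Agent.H53.GM.T_GL3 := Pool.Agent.H85.GM.pf_GL3
theorem a_TPB : Pool.Agent.H53.GM.T_TPB := Pool.Agent.H14.GM.pf_TPB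
theorem a_ATM : Pool.Agent.H53.GM.T_ATM := Pool.Agent.H11.GM.pf_ATM
theorem a_BLW : Pool.Agent.H53.GM.T_BLW := Pool.Agent.H14.GM.pf_BLW
theorem a_AMG : Pool.Agent.H53.GM.T_AMG := Pool.Agent.H14.GM.pf_AMG a_GLU a_GL2 a_GL3 a_TPB
theorem a_RLI : Pool.Agent.H53.GM.T_RLI := Pool.Agent.H91.GM.pf_RLI a_BLW
theorem a_DSU : Pool.Agent.H53.GM.T_DSU := Pool.Agent.H86.GM.pf_DSU
theorem a_ITR : Pool.Agent.H53.GM.T_ITR :=
  Pool.Agent.H66.GM.pf_ITR Pool.Agent.H21.GM.pf_PL Pool.Agent.H1.GM.pf_PLG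
theorem a_RAM : Pool.Agent.H53.GM.T_RAM :=
  Pool.Agent.H34.GM.pf_RAM (Pool.Agent.H86.GM.pf_RM0 Pool.Agent.H21.GM.pf_PL)
    (Pool.Agent.H98.GM.pf_STP a_DSU a_ITR)
theorem a_CON : Pool.Agent.H53.GM.T_CON := Pool.Agent.H39.GM.pf_CON Pool.Agent.H86.GM.pf_CMP
theorem a_SEL : Pool.Agent.H53.GC.T_SEL := Pool.Agent.H77.GC.pf_SEL Pool.Agent.H52.GC.pf_K3L
theorem a_OLS : Pool.Agent.H53.GC.T_OLS := Pool.Agent.H56.GC.pf_OLS a_SEL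
theorem a_OLK : Pool.Agent.H53.GM.T_OLK := Pool.Agent.H69.GM.pf_OLK a_SEL
theorem a_B2X : T_B2X := Pool.Agent.H53.GXR.B2.pf_B2X a_TPB a_GLU a_GL2 a_GL3 a_RLI
theorem a_B3X : T_B3X := Pool.Agent.H53.GXR.B3.pf_B3X a_TPB a_BLW a_AMG
theorem a_DZX : T_DZX := Pool.Agent.H53.GXR.DZ.pf_DZX
theorem a_AXX : T_AXX := Pool.Agent.H54.GX.pf_AXX a_DZX
theorem a_KZX : T_KZX := Pool.Agent.H53.GXR.KZ.pf_KZX a_DZX a_DSU
theorem a_KTX : T_KTX := Pool.Agent.H53.GXR.KT.pf_KTX a_DZX a_DSU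
theorem a_KSX : T_KSX := Pool.Agent.H53.GXR.KS.pf_KSX
theorem a_KGX : T_KGX := Pool.Agent.H53.GXR.KG.pf_KGX a_KSX a_KZX a_KTX
theorem a_CSX : T_CSX := Pool.Agent.H77.GX.pf_CSX
theorem a_CGX : T_CGX := Pool.Agent.H77.GX.pf_CGX a_DZX a_CSX a_DSU

/-- the output theorem -/
theorem a_OUX : T_OUX :=
  asm_oux (asm_axx Pool.Agent.H70.GM.pf_B1 a_B2X a_B3X) a_RAM a_AXX a_CSX a_CGX a_KSX a_KGX
    Pool.Agent.H60.GM.pf_COL (Pool.Agent.H36.GX.pf_KAX a_ATM) a_TPB Pool.Agent.H54.GM.pf_PWG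
    (Pool.Agent.H50.GX.pf_REX a_ATM) Pool.Agent.H33.GX.pf_CNX Pool.Agent.H41.GX.pf_LBX
    Pool.Agent.H37.GX.pf_CEX

theorem a_LIMX : T_LIMX := Pool.Agent.H40.GX.pf_LIMX a_ATM a_TPB
theorem a_RDX : T_RDX :=
  Pool.Agent.H35.GX.pf_RDX Pool.Agent.H63.GX.pf_REAX (Pool.Agent.H70.GX.pf_REBX a_B2X a_TPB a_ATM)

/-- the final theorem, from the combinatorial part -/
theorem a_fin (hALG : T_ALG) (τ σ : Pool.Agent.H68.BP.Sig) (Al : Fin σ.m → Fin τ.m → Prop)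
    (L : List (Σ n : ℕ, Pool.Agent.H68.BP.Str τ (Fin n))) (A : Type)
    (𝔸 : Pool.Agent.H68.BP.Str σ A) (hAc : Countable A) (hAn : Nonempty A)
    (hol : Pool.Agent.H58.SF.Oligo 𝔸) (har : ∀ l, 1 ≤ τ.ar l)
    (hT : ∀ (n : ℕ) (𝕏 : Pool.Agent.H68.BP.Str σ (Fin n)),
      (∃ f, Pool.Agent.H68.BP.IsHom 𝕏 𝔸 f) ↔
      ∃ M : Pool.Agent.H68.BP.Str τ (Fin n), Pool.Agent.H53.GM.Avoids L M ∧
        Pool.Agent.H53.GM.Cols Al M 𝕏) :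
    Pool.Agent.H68.BP.PPConstructsK3 𝔸 ∨ ∃ (ρ : Pool.Agent.H68.BP.Sig) (T : Type) (_ : Finite T)
      (𝕋 : Pool.Agent.H68.BP.Str ρ T), ¬ Pool.Agent.H68.BP.PPConstructsK3 𝕋 ∧
      N793a5b8e.ManyOneReducible (Pool.Agent.H68.BP.CSP 𝔸) (Pool.Agent.H68.BP.CSP 𝕋) :=
  asm_finX (fun τ σ N F Al A 𝔸 h1 h2 h3 h4 h5 => asm_mainX hALG a_OUX a_LIMX a_RDX a_OLS
    τ σ N F Al A 𝔸 h1 h2 h3 h4 h5) Pool.Agent.H97.GM.pf_PAD a_CON τ σ Al L A 𝔸 hAc hAn hol har hT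

end Pool.Agent.H53.GXR.All
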