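import Pool.Agent.H53.GX.Targets
import Pool.Agent.H53.GM.Basic

/-!
# The system of the sheets
-/

set_option autoImplicit false
set_option linter.unusedVariables false

namespace Pool.Agent.H53.GXR.KS

open Pool.Agent.H53.GX Pool.Agent.H68.BP Pool.Agent.H58.SF Pool.Agent.H53.GC Pool.Agent.H53.GR
open Pool.Agent.H53.GM
open Classical

theorem img_inst {W Q : Type} (i j : DecidableEq Q) (f : W → Q) (g : Finset W) :
    @Finset.image W Q i f g = @Finset.image W Q j f g := by
  have : i = j := Subsingleton.elim _ _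
  subst this
  rfl

section

variable {τ : Sig} {N k L : ℕ} {F : Set (Str τ (Fin N))} {I : Finset (Fin k)}
  {a₀ : Ty τ N (Fin k)} {α α' : Finset (Fin k × Rg L)} {κ : Kd τ N k}

theorem not_AZ_of_hasS (h : hasS α) : ¬ AZ α := by
  rintro ⟨_, h2⟩
  obtain ⟨v, hv⟩ := h
  have := h2 _ hv
  simp at this

theorem not_AS_of_not_hasS (h : ¬ hasS α) : ¬ AS α := by
  rintro ⟨⟨x, hx⟩, h2⟩
  apply h
  refine ⟨x.1, ?_⟩
  have := h2 x hx
  rw [← this]
  exact hx

theorem pat_const {X : Type} {p : X → Prop} (r : Fin 3) (x y : X) (c : Fin 6) (hx : p x)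
    (hy : p y) : p (pat r x y c) := by
  rw [pat_eq_ite]
  split_ifs
  · exact hx
  · exact hy

/-- the restriction of the label of a sheet -/
theorem lab_dn (hL : 1 ≤ L) (ha : rse I a₀ = a₀)
    (hok : (α = ∅ ∧ κ = (fun _ => a₀, fun _ => a₀)) ∨ (α ≠ ∅ ∧ OkX F I a₀ α κ))
    (hα : α' ⊆ α) (r : Fin 3) (c : Fin 6) (hin : ∀ x ∈ α, inR r x.2) :
    labK α' (rsG I a₀ α' κ) r c = rse (vr α' ∪ I) (labK α κ r c) := by
  by_cases h0 : α' = ∅
  · have e1 : labK α' (rsG I a₀ α' κ) r c = a₀ := by
      rw [h0]
      unfold labK rsG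
      have : ¬ hasS (∅ : Finset (Fin k × Rg L)) := by
        rintro ⟨v, hv⟩
        simp at hv
      rw [if_neg this, if_pos rfl]
    have e2 : vr α' ∪ I = I := by
      rw [h0]
      unfold vr
      simp
    rw [e1, e2]
    rcases hok with ⟨h1, h2⟩ | ⟨h1, h2⟩
    · have : ¬ hasS α := by
        rw [h1]
        rintro ⟨v, hv⟩
        simp at hv
      unfold labK
      rw [if_neg this, h2, ha]
    · unfold labK
      by_cases hS : hasS α
      · rw [if_pos hS]
        have h3 := h2.two (not_AZ_of_hasS hS)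
        exact (pat_const (p := fun t => rse I t = a₀) r _ _ c (h3 0).2 (h3 1).2).symm
      · rw [if_neg hS]
        exact ((h2.six (not_AS_of_not_hasS hS) c).2).symm
  · have h1 : α ≠ ∅ := by
      intro h
      apply h0
      rw [h] at hα
      exact Finset.subset_empty.1 hα
    have h2 : OkX F I a₀ α κ := by
      rcases hok with ⟨h, _⟩ | ⟨_, h⟩
      · exact absurd h h1
      · exact h
    by_cases hS' : hasS α'
    · have hS : hasS α := by
        obtain ⟨v, hv⟩ := hS'
        exact ⟨v, hα hv⟩
      unfold labK rsG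
      rw [if_pos hS', if_pos hS, if_neg h0]
      simp only [if_neg (not_AZ_of_hasS hS')]
      exact (pat_map (fun t => rse (vr α' ∪ I) t) r (κ.2 0) (κ.2 1) c).symm
    · have hAS : ¬ AS α' := not_AS_of_not_hasS hS'
      unfold labK rsG
      rw [if_neg hS', if_neg h0]
      simp only [if_neg hAS]
      by_cases hS : hasS α
      · rw [if_pos hS]
        obtain ⟨x, hx⟩ := Finset.nonempty_iff_ne_empty.2 h0
        obtain ⟨v, hv⟩ := hS
        have hxα := hα hx
        have hadj := h2.adj x hxα _ hv
        have hxS : x.2 ≠ some none := by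
          intro h
          apply hS'
          refine ⟨x.1, ?_⟩
          rw [← h]
          exact hx
        have hin' := hin x hxα
        rcases hx2 : x.2 with _ | _ | ⟨t, r'⟩
        · exfalso
          have := hadj.2.1
          rw [hx2] at this
          simp only [lev] at this
          omega
        · exact absurd hx2 hxS
        · rw [hx2] at hin'
          have hr : r' = r := hin'
          have hxm : (x.1, (some (some (t, r')) : Rg L)) ∈ α := by
            rw [← hx2]
            exact hxα
          have hAZ : ¬ AZ α := not_AZ_of_hasS ⟨v, hv⟩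
          have hAS' : ¬ AS α := by
            rintro ⟨_, h⟩
            exact hxS (h x hxα)
          have := h2.mid hAS' hAZ x.1 t r' hxm
          rw [this, hr]
      · rw [if_neg hS]

end

theorem pf_KSX : Pool.Agent.H53.GX.T_KSX := by
  intro τ N k L F I a₀ W _ C hL hP hC
  obtain ⟨P, hPM, hPa⟩ := hP
  have ha : rse I a₀ = a₀ := by
    rw [← hPa, rse_rse (Finset.Subset.refl I)]
  have himg : ∀ (g : Finset W) (r : Fin 3) (c : Fin 6),
      (g.image (fun x => (x, pos (C.pt x).2 r c))).image (KK C).pt = vr (g.image C.pt) := by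
    intro g r c
    unfold vr
    rw [Finset.image_image, Finset.image_image]
    rfl
  have hok : ∀ g κ, C.gd g κ → (g.image C.pt = ∅ ∧ κ = (fun _ => a₀, fun _ => a₀)) ∨
      (g.image C.pt ≠ ∅ ∧ OkX F I a₀ (g.image C.pt) κ) := by
    intro g κ h
    have h1 := hC.ok g κ h
    rw [img_inst _ inferInstance C.pt g] at h1
    exact h1
  have hdn : ∀ g κ g', C.gd g κ → g' ⊆ g → C.gd g' (rsG I a₀ (g'.image C.pt) κ) := by
    intro g κ g' h hs
    have h1 := hC.dn g κ g' h hs
    rw [img_inst _ inferInstance C.pt g'] at h1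
    exact h1
  refine ⟨?_, ?_, ?_, ?_⟩
  · rintro G t ⟨g, κ, r, c, hg, hin, rfl, rfl⟩
    intro x hx y hy hxy
    rw [Finset.mem_coe, Finset.mem_image] at hx hy
    obtain ⟨x', hx', rfl⟩ := hx
    obtain ⟨y', hy', rfl⟩ := hy
    have h1 : (C.pt x').1 = (C.pt y').1 := hxy
    have hmx : C.pt x' ∈ g.image C.pt := Finset.mem_image_of_mem _ hx'
    have hmy : C.pt y' ∈ g.image C.pt := Finset.mem_image_of_mem _ hy'
    rcases hok g κ hg with ⟨h2, _⟩ | ⟨_, h2⟩
    · rw [h2] at hmx
      simp at hmx
    · have h3 : C.pt x' = C.pt y' := h2.inj hmx hmy h1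
      have h4 : x' = y' := hC.tr g κ hg hx' hy' h3
      rw [h4]
  · rintro G t G' ⟨g, κ, r, c, hg, hin, rfl, rfl⟩ hsub
    set φ : W → W × Fin 6 := fun x => (x, pos (C.pt x).2 r c) with hφ
    set g' : Finset W := g.filter (fun x => φ x ∈ G') with hg'
    have hG' : G' = g'.image φ := by
      ext y
      constructor
      · intro hy
        obtain ⟨x, hx, rfl⟩ := Finset.mem_image.1 (hsub hy)
        exact Finset.mem_image_of_mem _ (Finset.mem_filter.2 ⟨hx, hy⟩)
      · intro hy
        obtain ⟨x, hx, rfl⟩ := Finset.mem_image.1 hy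
        exact (Finset.mem_filter.1 hx).2
    have hgs : g' ⊆ g := Finset.filter_subset _ _
    refine ⟨g', rsG I a₀ (g'.image C.pt) κ, r, c, hdn g κ g' hg hgs,
      fun x hx => hin x (hgs hx), hG', ?_⟩
    rw [img_inst _ inferInstance (KK C).pt G']
    have e1 : G'.image (KK C).pt = vr (g'.image C.pt) := by
      rw [hG']
      exact himg g' r c
    have hin' : ∀ x ∈ g.image C.pt, inR r x.2 := by
      intro x hx
      obtain ⟨y, hy, rfl⟩ := Finset.mem_image.1 hx
      exact hin y hy
    change rse (G'.image (KK C).pt ∪ I) (labK (g.image C.pt) κ r c) = _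
    rw [e1]
    exact (lab_dn hL ha (hok g κ hg) (Finset.image_subset_image hgs) r c hin').symm
  · rintro G t t' ⟨g, κ, r, c, hg, hin, hG, rfl⟩ ⟨g', κ', r', c', hg', hin', hG', rfl⟩
    have e1 : G.image Prod.fst = g := by
      rw [hG, Finset.image_image]
      exact Finset.image_id' 
    have e2 : G.image Prod.fst = g' := by
      rw [hG', Finset.image_image]
      exact Finset.image_id' 
    have e3 : g' = g := by rw [← e1, ← e2]
    rw [e3] at hg' hG' hin' ⊢
    have e4 : κ' = κ := hC.un g κ' κ hg' hg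
    rw [e4]
    have hpos : ∀ x ∈ g, pos (C.pt x).2 r c = pos (C.pt x).2 r' c' := by
      intro x hx
      have h1 : (x, pos (C.pt x).2 r c) ∈ G := by
        rw [hG]
        exact Finset.mem_image_of_mem (fun x => (x, pos (C.pt x).2 r c)) hx
      rw [hG'] at h1
      obtain ⟨y, hy, hxy⟩ := Finset.mem_image.1 h1
      have h2 : y = x := congrArg Prod.fst hxy
      have h3 := congrArg Prod.snd hxy
      rw [h2] at h3
      exact h3.symm
    unfold labK
    by_cases hS : hasS (g.image C.pt)
    · rw [if_pos hS, if_pos hS]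
      obtain ⟨v, hv⟩ := hS
      obtain ⟨x, hx, hxv⟩ := Finset.mem_image.1 hv
      have h1 := hpos x hx
      rw [hxv] at h1
      unfold pos at h1
      simp only [if_true] at h1
      rw [pat_eq_ite r, pat_eq_ite r', h1]
    · rw [if_neg hS, if_neg hS]
      rcases hok g κ hg with ⟨h1, h2⟩ | ⟨h1, h2⟩
      · rw [h2]
      · obtain ⟨y, hy⟩ := Finset.nonempty_iff_ne_empty.2 h1
        obtain ⟨x, hx, rfl⟩ := Finset.mem_image.1 hy
        have h3 := hpos x hx
        have h4 : (C.pt x).2 ≠ some none := by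
          intro h
          apply hS
          refine ⟨(C.pt x).1, ?_⟩
          rw [← h]
          exact hy
        unfold pos at h3
        rw [if_neg h4, if_neg h4] at h3
        rw [h3]
  · rintro G t ⟨g, κ, r, c, hg, hin, rfl, rfl⟩
    rw [img_inst _ inferInstance (KK C).pt _]
    change Disjoint ((g.image (fun x => (x, pos (C.pt x).2 r c))).image (KK C).pt) I ∧
      ∃ P, Rl F P ∧ rse ((g.image (fun x => (x, pos (C.pt x).2 r c))).image (KK C).pt ∪ I) P =
        labK (g.image C.pt) κ r c
    rw [himg]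
    rcases hok g κ hg with ⟨h1, h2⟩ | ⟨h1, h2⟩
    · have hv : vr (g.image C.pt) = ∅ := by
        rw [h1]
        rfl
      rw [hv]
      refine ⟨Finset.disjoint_empty_left _, P, hPM, ?_⟩
      rw [Finset.empty_union, hPa]
      unfold labK
      have : ¬ hasS (g.image C.pt) := by
        rw [h1]
        rintro ⟨v, hv⟩
        simp at hv
      rw [if_neg this, h2]
    · refine ⟨h2.dis, ?_⟩
      unfold labK
      by_cases hS : hasS (g.image C.pt)
      · rw [if_pos hS]
        have h3 := h2.two (not_AZ_of_hasS hS)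
        exact pat_const (p := fun t => ∃ P, Rl F P ∧ rse (vr (g.image C.pt) ∪ I) P = t) r _ _ c
          (h3 0).1 (h3 1).1
      · rw [if_neg hS]
        exact (h2.six (not_AS_of_not_hasS hS) c).1

end Pool.Agent.H53.GXR.KS
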